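import Pool.Agent.H78.S.Targets

/-!
# Row CJH of sgt_modules: conjugation
-/

set_option autoImplicit false

open Set Pool.Agent.H77.BC Pool.Agent.H78.S
open scoped Pointwise

namespace Pool.Agent.H84.S

theorem cj_st {G S : Type} [Group G] [MulAction G S] {n : ℕ} {x : Fin (n + 2) → S} {g : G}
    {σ : Equiv.Perm (Fin (n + 2))} (hg : Pm x g σ) (A : Set (Fin (n + 2))) :
    cj g⁻¹ (St G x A) = St G x (σ '' A) := by
  ext s
  rw [mem_cj, inv_inv]
  constructor
  · rintro h _ ⟨i, hi, rfl⟩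
    have h1 := h i hi
    rw [mul_smul, mul_smul, inv_smul_eq_iff, hg i] at h1
    exact h1
  · intro h i hi
    have h1 := h (σ i) ⟨i, hi, rfl⟩
    rw [mul_smul, mul_smul, inv_smul_eq_iff, hg i]
    exact h1

theorem pf_CJH (hCCJ : T_CCJ) (hSTD : T_STD) (hORM : T_ORM) : T_CJH := by
  intro M U G S _ _ _ _ n x hf g σ hg
  have := hf.dg
  have := hf.ful
  have hst := (hSTD U (G := G) (S := S) hf.act).1 (Fin (n + 2)) x
  have hcc : ∀ A : Set (Fin (n + 2)), cj g⁻¹ (cc U (St G x A)) = cc U (St G x (σ '' A)) := by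
    intro A
    rw [← hCCJ U g⁻¹ (St G x A) (hst A), cj_st hg]
  have hHH : ∀ i j, cj g⁻¹ (HH U G x i j) = HH U G x (σ i) (σ j) := by
    intro i j
    unfold HH
    rw [hcc, image_compl_eq σ.bijective, image_pair]
  have hTT : ∀ i, cj g⁻¹ (TT U G x i) = TT U G x (σ i) := by
    intro i
    unfold TT
    rw [hcc, image_compl_eq σ.bijective, image_singleton]
  refine ⟨hHH, hTT, ?_, ?_⟩
  · intro h0 i
    unfold XX
    rw [← (hORM U hf.act g (∅ : Set S) (∅ : Set S)).2.2.2 (HH U G x 0 i) (x i), hHH, hg i, h0]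
  · intro h0
    rw [← (hORM U hf.act g (∅ : Set S) (∅ : Set S)).2.2.2 (TT U G x 0) (x 0), hTT, hg 0, h0]

end Pool.Agent.H84.S
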