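import Pool.Agent.H78.S.Targets

/-!
# Row GEN of sgt_modules: orbits of full rank
-/

set_option autoImplicit false

open Set Pool.Agent.H77.BC Pool.Agent.H78.S
open scoped Pointwise

namespace Pool.Agent.H84.S

theorem pf_GEN (hRNK : T_RNK) (hSTD : T_STD) (hORB : T_ORB) : T_GEN := by
  intro M U G S _ _ _ _ n x hf A c hc H hD hHA hR
  have := hf.dg
  have := hf.ful
  have hA := l_RKA U
  obtain ⟨hirr, hrk⟩ := hRNK U x hf
  have hst := (hSTD U (G := G) (S := S) hf.act).1 (Fin (n + 2)) x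
  obtain ⟨h1, h2, h3, -⟩ := hORB U hf.act H (x c) hD
  have hsub : (Fx H (x c) : Set G) ⊆ (St G x (insert c A) : Set G) := by
    rintro g ⟨hg, hgc⟩ i (rfl | hi)
    · exact hgc
    · exact hHA hg i hi
  have h4 : U.R (Fx H (x c) : Set G) ≤ U.R (St G x (insert c A) : Set G) :=
    hA.mono h2 (hst _) ⟨1, one_mem _⟩ hsub
  have h5 := hrk A
  have h6 := hrk (insert c A)
  rw [Set.ncard_insert_of_notMem hc (Set.toFinite A), mul_add, mul_one] at h6
  have hne : (Orb H (x c)).Nonempty := ⟨x c, 1, one_mem _, (one_smul _ _).symm⟩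
  have h7 : U.R (Orb H (x c)) ≤ n := by
    rw [← hf.rk]
    exact hA.mono h1 hf.ful.full hne (subset_univ _)
  refine ⟨⟨Orb H (x c), h1, hne, subset_univ _, subset_rfl, ?_⟩, ?_⟩
  · rw [hf.rk]
    omega
  · omega

end Pool.Agent.H84.S
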