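import Pool.Agent.H84.S.HIJ

/-!
# Row HIC of sgt_modules: the situation of a line
-/

set_option autoImplicit false

open Set Pool.Agent.H77.BC Pool.Agent.H78.S
open scoped Pointwise

namespace Pool.Agent.H84.S

theorem pf_HIC (hHIJ : T_HIJ) (hZER : T_ZER) (hORB : T_ORB) : T_HIC := by
  intro M U G S _ _ _ _ n x hf i hi
  have := hf.dg
  have := hf.ful
  have hA := l_RKA U
  obtain ⟨a1, -, -, -, a5, a6, -, -, -⟩ := hHIJ U x hf 0 i hi.symm
  obtain ⟨-, -, -, -, -, -, -, b8, -⟩ := hHIJ U x hf 0 i hi.symm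
  obtain ⟨-, -, -, -, -, -, b7, -, b9, -⟩ := hHIJ U x hf 0 i hi.symm
  have hX : XX U G x i = Orb (HH U G x 0 i) (x 0) := a5.symm
  obtain ⟨o1, -, -, -⟩ := hORB U hf.act (HH U G x 0 i) (x i) a1.1
  have hbig : Big U univ (XX U G x i) := by
    rw [hX]
    exact a6
  have hXne : (XX U G x i).Nonempty := ⟨x i, mem_orb_self _ _⟩
  have hTX : Orb (TT U G x 0) (x 0) ⊆ XX U G x i := by
    rw [hX]
    rintro y ⟨t, ht, rfl⟩
    exact ⟨t, b7 ht, rfl⟩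
  have hXR : U.R (XX U G x i) ≤ U.R (univ : Set S) :=
    hA.mono o1 hf.ful.full hXne (subset_univ _)
  refine ⟨⟨a1, rfl, b8, ?_, ?_, ?_⟩, hbig, ?_⟩
  · rw [hX]
    exact mem_orb_self _ _
  · obtain ⟨Y, hY1, hY2, -, hY4, hY5⟩ := b9
    exact ⟨Y, hY1, hY2, hY4.trans hTX, hY4, hXR.trans hY5⟩
  · obtain ⟨Y, hY1, hY2, -, hY4, hY5⟩ := hbig
    have h1 := hA.mono hY1 o1 hY2 hY4
    have h2 := hf.pos
    have h3 := hf.rk
    have h4 : U.R (XX U G x i) = U.R (Orb (HH U G x 0 i) (x i)) := rfl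
    omega
  · intro g hg
    exact hZER U x hf g ⟨_, hbig, hg⟩

end Pool.Agent.H84.S
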