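import Pool.Agent.H78.S.Targets

/-!
# Row HIJ of sgt_modules: the groups `HH` and `TT`
-/

set_option autoImplicit false

open Set Pool.Agent.H77.BC Pool.Agent.H78.S
open scoped Pointwise

namespace Pool.Agent.H84.S

section

variable {G S : Type} [Group G] [MulAction G S]

theorem mem_orb_self (H : Subgroup G) (o : S) : o ∈ Orb H o :=
  ⟨1, one_mem _, (one_smul _ _).symm⟩

/-- two orbits which meet are equal -/
theorem orb_eq {H : Subgroup G} {o o' : S} (h : (Orb H o ∩ Orb H o').Nonempty) :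
    Orb H o = Orb H o' := by
  obtain ⟨y, ⟨a, ha, rfl⟩, b, hb, hab⟩ := h
  have h1 : o = (a⁻¹ * b) • o' := by rw [mul_smul, ← hab, inv_smul_smul]
  have h2 : o' = (b⁻¹ * a) • o := by rw [mul_smul, hab, inv_smul_smul]
  ext z
  constructor
  · rintro ⟨c, hc, rfl⟩
    exact ⟨c * (a⁻¹ * b), mul_mem hc (mul_mem (inv_mem ha) hb), by
      rw [mul_smul, ← h1]⟩
  · rintro ⟨c, hc, rfl⟩
    exact ⟨c * (b⁻¹ * a), mul_mem hc (mul_mem (inv_mem hb) ha), by
      rw [mul_smul, ← h2]⟩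

theorem st_anti {ι : Type} (x : ι → S) {A B : Set ι} (h : A ⊆ B) : St G x B ≤ St G x A :=
  fun _ hg i hi => hg i (h hi)

end

theorem ncard_c1 {n : ℕ} (i : Fin (n + 2)) : ({i}ᶜ : Set (Fin (n + 2))).ncard = n + 1 := by
  have h := Set.ncard_add_ncard_compl ({i} : Set (Fin (n + 2)))
  rw [Set.ncard_singleton, Nat.card_fin] at h
  omega

theorem ncard_c2 {n : ℕ} {i j : Fin (n + 2)} (hij : i ≠ j) :
    ({i, j}ᶜ : Set (Fin (n + 2))).ncard = n := by
  have h := Set.ncard_add_ncard_compl ({i, j} : Set (Fin (n + 2)))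
  rw [Set.ncard_pair hij, Nat.card_fin] at h
  omega

theorem pf_HIJ (hRNK : T_RNK) (hGEN : T_GEN) (hCCA : T_CCA) (hCCB : T_CCB) (hSTD : T_STD)
    (hORB : T_ORB) (hBGA : T_BGA) : T_HIJ := by
  intro M U G S _ _ _ _ n x hf i j hij
  have := hf.dg
  have := hf.ful
  obtain ⟨hirr, hrk⟩ := hRNK U x hf
  have hst := (hSTD U (G := G) (S := S) hf.act).1 (Fin (n + 2)) x
  have hgen := hGEN U x hf
  obtain ⟨a1, a2, -, a4⟩ := hCCA U (St G x {i, j}ᶜ) (hst _)
  obtain ⟨b1, b2, -, b4⟩ := hCCA U (St G x {i}ᶜ) (hst _)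
  have hrk1 := hrk {i, j}ᶜ
  have hrk2 := hrk {i}ᶜ
  rw [ncard_c2 hij] at hrk1
  rw [ncard_c1 i] at hrk2
  have hfixH : ∀ l, l ≠ i → l ≠ j → ∀ h ∈ HH U G x i j, h • x l = x l := by
    intro l hli hlj h hh
    refine a1 hh l ?_
    rw [mem_compl_iff, mem_insert_iff, mem_singleton_iff]
    tauto
  have hfixT : ∀ l, l ≠ i → ∀ t ∈ TT U G x i, t • x l = x l := by
    intro l hli h hh
    exact b1 hh l hli
  have gi := hgen {i, j}ᶜ i (by simp) (HH U G x i j) a2.1 a1 (by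
    rw [show U.R (HH U G x i j : Set G) = U.R (St G x {i, j}ᶜ : Set G) from a4])
  have gj := hgen {i, j}ᶜ j (by simp) (HH U G x i j) a2.1 a1 (by
    rw [show U.R (HH U G x i j : Set G) = U.R (St G x {i, j}ᶜ : Set G) from a4])
  have gt := hgen {i}ᶜ i (by simp) (TT U G x i) b2.1 b1 (by
    rw [show U.R (TT U G x i : Set G) = U.R (St G x {i}ᶜ : Set G) from b4])
  have horb : Orb (HH U G x i j) (x i) = Orb (HH U G x i j) (x j) :=
    orb_eq (hirr.2.2 _ _ gi.1 gj.1)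
  have hsub : (({i, j} : Set (Fin (n + 2)))ᶜ) ⊆ ({i} : Set (Fin (n + 2)))ᶜ :=
    compl_subset_compl.2 (by intro l hl; exact Or.inl hl)
  have hTH : TT U G x i ≤ HH U G x i j :=
    (hCCB U (St G x {i, j}ᶜ) (TT U G x i) (hst _) b2 (b1.trans (st_anti x hsub))).1
  obtain ⟨o1, o2, o3, -⟩ := hORB U hf.act (HH U G x i j) (x j) a2.1
  obtain ⟨c1, c2, -, c4⟩ := hCCA U (Fx (HH U G x i j) (x j)) o2
  have hKle : cc U (Fx (HH U G x i j) (x j)) ≤ St G x {i}ᶜ := by
    intro g hg l hl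
    have h1 := c1 hg
    by_cases hlj : l = j
    · subst hlj
      exact h1.2
    · exact hfixH l hl hlj g h1.1
  have hRK : U.R (St G x {i}ᶜ : Set G) ≤ U.R (cc U (Fx (HH U G x i j) (x j)) : Set G) := by
    rw [c4]
    have h1 := gj.2
    have h2 : U.R (HH U G x i j : Set G) = U.R (St G x {i, j}ᶜ : Set G) := a4
    have h3 : n * (n + 1) = n * n + n := by ring
    omega
  have hTK : TT U G x i = cc U (Fx (HH U G x i j) (x j)) :=
    ((hCCB U (St G x {i}ᶜ) _ (hst _) c2 hKle).2 hRK).symm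
  refine ⟨a2, b2, ?_, hfixH, horb, gi.1, hTH, hTK, gt.1, hfixT, ?_, ?_, gt.2⟩
  · unfold HH
    rw [Set.pair_comm]
  · rw [← hrk1]
    exact congrArg (· + n * n) a4
  · rw [← hrk2]
    exact congrArg (· + n * (n + 1)) b4

end Pool.Agent.H84.S
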